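import Mathlib
import Pool.Agent.Lib.MP_8d161d_ag.CaseB

/-!
Definitions for the theorem on very general hyperplane sections.
-/

open Filter Topology MvPolynomial

namespace Pool.Agent.Lib.GGL.VG

/-- Every algebraically independent subfamily of `w` has at most `D` members. -/
def TrdegLE (K : Type*) {E σ : Type*} [Field K] [Field E] [Algebra K E] (w : σ → E) (D : ℕ) : Prop :=
  ∀ B : Finset σ, AlgebraicIndependent K (fun b : B => w b) → B.card ≤ D

/-- The coefficient of `(t - b) ^ f` in a polynomial `∑ e, c e * l ^ (K - e / 2) * t ^ e`, in the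
first variable. -/
def tay {A : Type*} [CommRing A] {q k : ℕ} (K : ℕ) (l b : A) (f : ℕ)
    (c : (Fin (q + 1) → Fin (k + 1)) → A) : (Fin q → Fin (k + 1)) → A := fun γ =>
  ∑ e : Fin (k + 1), c (Fin.cons e γ) * (((e : ℕ).choose f : ℕ) : A) * b ^ ((e : ℕ) - f) *
    l ^ (K - (e : ℕ) / 2)

/-- All Taylor coefficients that are lexicographically below `g` vanish. -/
def Good {A : Type*} [CommRing A] {k : ℕ} (K : ℕ) : (q : ℕ) → (g : Fin q → ℕ) → (l b : Fin q → A) →
    ((Fin q → Fin (k + 1)) → A) → Prop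
  | 0, _, _, _, _ => True
  | q + 1, g, l, b, c => (∀ f < g 0, ∀ γ, tay K (l 0) (b 0) f c γ = 0) ∧
      Good K q (Fin.tail g) (Fin.tail l) (Fin.tail b) (tay K (l 0) (b 0) (g 0) c)

/-- The Taylor coefficient with exponent `g`. -/
def lead {A : Type*} [CommRing A] {q k : ℕ} (K : ℕ) (g : Fin q → ℕ) (l b : Fin q → A)
    (c : (Fin q → Fin (k + 1)) → A) : A :=
  ∑ γ, c γ * ∏ j, ((((γ j : ℕ).choose (g j) : ℕ) : A) * b j ^ ((γ j : ℕ) - g j) *
    l j ^ (K - (γ j : ℕ) / 2))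

/-- Polynomials which are homogeneous in each of the last two groups of variables. -/
def BiHom {K τ ι : Type*} [CommSemiring K] (Q : MvPolynomial (τ ⊕ (ι ⊕ ι)) K) (i j : ℕ) : Prop :=
  IsWeightedHomogeneous (Sum.elim (fun _ => ((0, 0) : ℕ × ℕ))
    (Sum.elim (fun _ => ((1, 0) : ℕ × ℕ)) fun _ => ((0, 1) : ℕ × ℕ))) Q (i, j)

/-- The one-jets of a holomorphic curve, up to scaling. -/
def jets {M : ℕ} (Y : ℂ → ℂ → Fin (M + 1) → ℂ) : Set ((Fin (M + 1) → ℂ) × (Fin (M + 1) → ℂ)) :=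
  {w | ∃ z a b s : ℂ, w = (a • Y z z, b • (deriv (Y z) z + s • Y z z))}

/-- The point of the parameter space with hyperplanes `p` and one-jet `(y, Z)`. -/
def pt {q M : ℕ} {E : Type*} (p : Fin q → Fin (M + 1) → E) (y Z : Fin (M + 1) → E) :
    (Fin q × Fin (M + 1)) ⊕ (Fin (M + 1) ⊕ Fin (M + 1)) → E :=
  Sum.elim (fun x => p x.1 x.2) (Sum.elim y Z)

end Pool.Agent.Lib.GGL.VG
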