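import Mathlib
import Pool.Agent.Lib.MP_8d161d_ag.VG.VDefs
import Pool.Agent.Lib.MP_8d161d_ag.Mg.G004
import Pool.Agent.Lib.MP_8d161d_ag.Mg.G007

/-!
Noetherian induction: general hyperplanes.
-/

open Filter Topology MvPolynomial Module

namespace Pool.Agent.Lib.GGL.VG

lemma minor_dot' {E : Type*} [Field E] {M : ℕ} (p y Z : Fin (M + 1) → E) (i : Fin (M + 1)) :
    (p ⬝ᵥ Z) * y i - Z i * (p ⬝ᵥ y) = p ⬝ᵥ (fun k => Z k * y i - Z i * y k) := by
  simp only [dotProduct, Finset.sum_mul, Finset.mul_sum, ← Finset.sum_sub_distrib]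
  exact Finset.sum_congr rfl fun k _ => by ring

lemma sep_minor' {K E : Type*} [Field K] [Field E] [Algebra K E] {q M : ℕ}
    {p : Fin q → Fin (M + 1) → E}
    {F : Subalgebra K E} (hp : AlgebraicIndependent F (fun x : Fin q × Fin (M + 1) => p x.1 x.2))
    {y Z : Fin (M + 1) → E} (hy : ∀ i, y i ∈ F) (hZ : ∀ i, Z i ∈ F) {a b : Fin (M + 1)}
    (hab : y a * Z b - y b * Z a ≠ 0) (j : Fin q) (i : Fin (M + 1)) (hi : y i ≠ 0) :
    (p j ⬝ᵥ Z) * y i - Z i * (p j ⬝ᵥ y) ≠ 0 := by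
  rw [minor_dot']
  refine dot_ne_zero (K := K) hp (y := fun k => Z k * y i - Z i * y k)
    (fun k => F.sub_mem (F.mul_mem (hZ k) (hy i)) (F.mul_mem (hZ i) (hy k))) ?_ j
  intro h0
  apply hab
  have h1 : ∀ k, Z k * y i - Z i * y k = 0 := fun k => congrFun h0 k
  have h2 : (y a * Z b - y b * Z a) * y i = 0 := by
    linear_combination (y a) * h1 b - (y b) * h1 a
  exact (mul_eq_zero.mp h2).resolve_right hi

lemma wronskian_ne' {K E : Type*} [Field K] [Field E] [Algebra K E] {q M : ℕ}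
    {p : Fin q → Fin (M + 1) → E}
    {F : Subalgebra K E} (hp : AlgebraicIndependent F (fun x : Fin q × Fin (M + 1) => p x.1 x.2))
    {y Z : Fin (M + 1) → E} (hy : ∀ i, y i ∈ F) (hZ : ∀ i, Z i ∈ F) {a b : Fin (M + 1)}
    (hab : y a * Z b - y b * Z a ≠ 0) {i j : Fin q} (hij : i ≠ j) :
    (p i ⬝ᵥ y) * (p j ⬝ᵥ Z) - (p j ⬝ᵥ y) * (p i ⬝ᵥ Z) ≠ 0 := by
  intro h0
  apply hab
  have h1 : aeval (Sum.elim (fun x : Fin q × Fin (M + 1) => p x.1 x.2) (Sum.elim y Z))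
      (lR K i * bR K j - lR K j * bR K i) = 0 := by
    have h2 := aeval_lR' (K := K) p y Z
    have h3 := aeval_bR' (K := K) p y Z
    unfold pt at h2 h3
    rw [map_sub, map_mul, map_mul, h2, h2, h3, h3, h0]
  have h4 := transfer' (F := F) (w := Sum.elim y Z)
    (by rintro (k | k); exacts [hy k, hZ k]) hp h1 (w' := Sum.elim y Z) (fun G hG => hG)
    (fun x => (Pi.single (if x.1 = i then a else b) (1 : E) : Fin (M + 1) → E) x.2)
  obtain ⟨p', hp'⟩ : ∃ p' : Fin q → Fin (M + 1) → E,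
    p' = fun l => (Pi.single (if l = i then a else b) (1 : E)) := ⟨_, rfl⟩
  have h5 : aeval (pt p' y Z) (lR K i * bR K j - lR K j * bR K i) = 0 := by
    rw [hp']
    exact h4
  rw [map_sub, map_mul, map_mul, aeval_lR', aeval_lR', aeval_bR', aeval_bR', hp'] at h5
  simpa [hij.symm] using h5

/-- For general hyperplanes every curve with tangency conditions whose jets are zeros of `𝔞` is
constant. -/
def ConstFor {M : ℕ} (N : ℕ) (𝔞 : Ideal (MvPolynomial (Fin (M + 1) ⊕ Fin (M + 1)) ℂ)) : Prop :=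
  ∃ Θ : MvPolynomial (Fin N × Fin (M + 1)) ℂ, Θ ≠ 0 ∧ ∀ p : Fin N → Fin (M + 1) → ℂ,
    eval (fun x : Fin N × Fin (M + 1) => p x.1 x.2) Θ ≠ 0 →
    ∀ Y : ℂ → ℂ → Fin (M + 1) → ℂ, LiftFamily Y →
      (∀ w ∈ jets Y, ∀ G ∈ 𝔞, eval (Sum.elim w.1 w.2) G = 0) →
      (∀ j z₁, analyticOrderAt (fun z => p j ⬝ᵥ Y z₁ z) z₁ = 0 ∨
        (2 : ℕ∞) ≤ analyticOrderAt (fun z => p j ⬝ᵥ Y z₁ z) z₁) →
      ∀ z w, ∃ a : ℂ, a ≠ 0 ∧ Y z z = a • Y w w

lemma zero_sup {M : ℕ} {𝔞 : Ideal (MvPolynomial (Fin (M + 1) ⊕ Fin (M + 1)) ℂ)}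
    {T : Set (MvPolynomial (Fin (M + 1) ⊕ Fin (M + 1)) ℂ)}
    {x : Fin (M + 1) ⊕ Fin (M + 1) → ℂ} (h1 : ∀ G ∈ 𝔞, eval x G = 0)
    (h2 : ∀ G ∈ T, eval x G = 0) : ∀ G ∈ 𝔞 ⊔ Ideal.span T, eval x G = 0 := by
  have h3 : 𝔞 ⊔ Ideal.span T ≤ RingHom.ker (eval x) := by
    apply sup_le
    · intro G hG
      exact h1 G hG
    · rw [Ideal.span_le]
      intro G hG
      exact h2 G hG
  intro G hG
  exact h3 hG

lemma jets_irreducible {M : ℕ} {Y : ℂ → ℂ → Fin (M + 1) → ℂ} (hY : LiftFamily Y)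
    {f g : MvPolynomial (Fin (M + 1) ⊕ Fin (M + 1)) ℂ}
    (h : ∀ w ∈ jets Y, eval (Sum.elim w.1 w.2) (f * g) = 0) :
    (∀ w ∈ jets Y, eval (Sum.elim w.1 w.2) f = 0) ∨
      (∀ w ∈ jets Y, eval (Sum.elim w.1 w.2) g = 0) := by
  rcases jets_dichotomy hY f with hf | hf
  · exact Or.inl hf
  rcases jets_dichotomy hY g with hg | hg
  · exact Or.inr hg
  exfalso
  obtain ⟨z, h1, h2⟩ := ((hf 0).and (hg 0)).exists
  obtain ⟨a, b, s, h3⟩ := exists_common_three (fun i : Bool => if i then f else g) (Y z z)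
    (deriv (Y z) z) (by
      intro i
      cases i
      · exact h2
      · exact h1)
  have h4 := h _ ⟨z, a, b, s, rfl⟩
  rw [map_mul] at h4
  rcases mul_eq_zero.mp h4 with h5 | h5
  · exact h3 true h5
  · exact h3 false h5

lemma constFor_split {M N : ℕ} {𝔞 : Ideal (MvPolynomial (Fin (M + 1) ⊕ Fin (M + 1)) ℂ)}
    {f g : MvPolynomial (Fin (M + 1) ⊕ Fin (M + 1)) ℂ} (hfg : f * g ∈ 𝔞)
    (h1 : ConstFor N (𝔞 ⊔ Ideal.span {f})) (h2 : ConstFor N (𝔞 ⊔ Ideal.span {g})) :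
    ConstFor N 𝔞 := by
  obtain ⟨Θ₁, hΘ₁, h1⟩ := h1
  obtain ⟨Θ₂, hΘ₂, h2⟩ := h2
  refine ⟨Θ₁ * Θ₂, mul_ne_zero hΘ₁ hΘ₂, ?_⟩
  intro p hp Y hY hjets hord
  rw [map_mul] at hp
  rcases jets_irreducible hY (f := f) (g := g) (fun w hw => hjets w hw _ hfg) with h | h
  · refine h1 p (left_ne_zero_of_mul hp) Y hY (fun w hw => zero_sup (hjets w hw) ?_) hord
    intro G hG
    rw [Set.mem_singleton_iff.mp hG]
    exact h w hw
  · refine h2 p (right_ne_zero_of_mul hp) Y hY (fun w hw => zero_sup (hjets w hw) ?_) hord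
    intro G hG
    rw [Set.mem_singleton_iff.mp hG]
    exact h w hw

lemma constFor_of_minors {M N : ℕ} {𝔞 : Ideal (MvPolynomial (Fin (M + 1) ⊕ Fin (M + 1)) ℂ)}
    (h : ∀ a b, minorP ℂ a b ∈ 𝔞) : ConstFor N 𝔞 := by
  refine ⟨1, one_ne_zero, ?_⟩
  intro p hp Y hY hjets hord z w
  apply hY.const
  intro z₁ hz₁
  obtain ⟨a, b, hab⟩ := exists_minor hz₁
  apply hab
  have h1 := hjets (Y z₁ z₁, deriv (Y z₁) z₁)
    ⟨z₁, 1, 1, 0, by rw [one_smul, one_smul, zero_smul, add_zero]⟩ _ (h a b)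
  rw [← aeval_eq_eval', aeval_minorP] at h1
  exact h1

/-- the differential of a polynomial -/
noncomputable def diffP {M : ℕ} (f : MvPolynomial (Fin (M + 1)) ℂ) :
    MvPolynomial (Fin (M + 1) ⊕ Fin (M + 1)) ℂ :=
  ∑ i, rename Sum.inl (pderiv i f) * X (Sum.inr i)

lemma aeval_diffP {E : Type*} [Field E] [Algebra ℂ E] {M : ℕ} (f : MvPolynomial (Fin (M + 1)) ℂ)
    (y Z : Fin (M + 1) → E) : aeval (Sum.elim y Z) (diffP f) = t14D y Z f := by
  rw [diffP, t14D, map_sum]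
  refine Finset.sum_congr rfl fun i _ => ?_
  rw [map_mul, aeval_rename, aeval_X, Sum.elim_comp_inl, Sum.elim_inr]

lemma diff_on_jets {M : ℕ} {Y : ℂ → ℂ → Fin (M + 1) → ℂ} (hY : LiftFamily Y)
    {G : MvPolynomial (Fin (M + 1)) ℂ} (h1 : ∀ w' ∈ jets Y, aeval w'.1 G = 0) :
    ∀ w ∈ jets Y, t14D w.1 w.2 G = 0 := by
  rintro ⟨w1, w2⟩ ⟨z, a₀, b, s, hw⟩
  rw [Prod.mk.injEq] at hw
  obtain ⟨hw1, hw2⟩ := hw
  have key : ∀ a : ℂ, a ≠ 0 → t14D (a • Y z z) (b • (deriv (Y z) z + s • Y z z)) G = 0 := by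
    intro a ha
    let γ : ℂ → Fin (M + 1) → ℂ := fun t => (a * Complex.exp (s * (t - z))) • Y z t
    have h3 : ∀ᶠ t in 𝓝 z, aeval (γ t) G = 0 := by
      filter_upwards [hY.2.2 z] with t ⟨l, hl1, hl2, hl3⟩
      have h4 : Y t t = l t • Y z t := hl3.self_of_nhds
      have h5 : γ t = (a * Complex.exp (s * (t - z)) * (l t)⁻¹) • Y t t := by
        rw [h4, smul_smul, mul_assoc, inv_mul_cancel₀ hl2, mul_one]
      rw [h5]
      exact h1 ((a * Complex.exp (s * (t - z)) * (l t)⁻¹) • Y t t,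
        (0 : ℂ) • (deriv (Y t) t + (0 : ℂ) • Y t t)) ⟨t, _, 0, 0, rfl⟩
    have hYd : HasDerivAt (Y z) (deriv (Y z) z) z := (hY.1 z).differentiableAt.hasDerivAt
    have hγ : HasDerivAt γ (a • (deriv (Y z) z + s • Y z z)) z := by
      have h6 : HasDerivAt (fun t : ℂ => a * Complex.exp (s * (t - z))) (a * s) z := by
        have h7 : HasDerivAt (fun t : ℂ => s * (t - z)) s z := by
          simpa using ((hasDerivAt_id z).sub_const z).const_mul s
        have h8 := (h7.cexp).const_mul a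
        simpa using h8
      refine (h6.smul hYd).congr_deriv ?_
      simp only [sub_self, mul_zero, Complex.exp_zero, mul_one]
      module
    have h4 := t14_hasDerivAt hγ G
    have h5 : HasDerivAt (fun t => aeval (γ t) G) 0 z :=
      (hasDerivAt_const z (0 : ℂ)).congr_of_eventuallyEq h3
    have h6 : t14D (γ z) (a • (deriv (Y z) z + s • Y z z)) G = 0 := h4.unique h5
    have h7 : γ z = a • Y z z := by
      simp [γ]
    rw [h7] at h6
    have h8 : b • (deriv (Y z) z + s • Y z z) = (b / a) • (a • (deriv (Y z) z + s • Y z z)) := by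
      rw [smul_smul, div_mul_cancel₀ _ ha]
    have h9 : t14D (a • Y z z) (b • (deriv (Y z) z + s • Y z z)) G =
        (b / a) * t14D (a • Y z z) (a • (deriv (Y z) z + s • Y z z)) G := by
      conv_lhs => rw [h8]
      simp only [t14D, Finset.mul_sum]
      apply Finset.sum_congr rfl
      intro j _
      rw [Pi.smul_apply, smul_eq_mul]
      ring
    rw [h9, h6, mul_zero]
  have hev : ∀ y Z : Fin (M + 1) → ℂ, t14D y Z G = eval (Sum.elim y Z) (diffP G) := by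
    intro y Z
    rw [← aeval_diffP, aeval_eq_eval']
  have hcont : Continuous fun a : ℂ =>
      eval (Sum.elim (a • Y z z) (b • (deriv (Y z) z + s • Y z z))) (diffP G) :=
    continuous_eval_elim _ (by fun_prop) continuous_const
  have h5 : (fun a : ℂ => eval (Sum.elim (a • Y z z) (b • (deriv (Y z) z + s • Y z z))) (diffP G)) =
      fun _ => 0 := Continuous.ext_on (s := {(0 : ℂ)}ᶜ) (dense_compl_singleton (0 : ℂ))
    hcont continuous_const (fun a ha => by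
      have h6 := key a ha
      rw [hev] at h6
      exact h6)
  have h7 := congrFun h5 a₀
  show t14D w1 w2 G = 0
  rw [hev, hw1, hw2]
  exact h7

lemma constFor_diff {M N : ℕ} {𝔞 : Ideal (MvPolynomial (Fin (M + 1) ⊕ Fin (M + 1)) ℂ)}
    {f : MvPolynomial (Fin (M + 1)) ℂ} (hf : rename Sum.inl f ∈ 𝔞)
    (h1 : ConstFor N (𝔞 ⊔ Ideal.span {diffP f})) : ConstFor N 𝔞 := by
  obtain ⟨Θ₁, hΘ₁, h1⟩ := h1
  refine ⟨Θ₁, hΘ₁, ?_⟩
  intro p hp Y hY hjets hord
  refine h1 p hp Y hY (fun w hw => zero_sup (hjets w hw) ?_) hord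
  intro G hG
  rw [Set.mem_singleton_iff.mp hG, ← aeval_eq_eval', aeval_diffP]
  apply diff_on_jets hY _ w hw
  intro w' hw'
  have h2 := hjets w' hw' _ hf
  rw [← aeval_eq_eval', aeval_rename, Sum.elim_comp_inl] at h2
  exact h2

end Pool.Agent.Lib.GGL.VG
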